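import Pool.Agent.W922.GenFinal
import Pool.Agent.W948.BC.Glue

/-!
# MP_fffd22_an: topological conjugacy is Borel on a dense Gδ set of diffeomorphisms

For every closed manifold and every `r ∈ {1, 2, …, ∞}`; the dense Gδ set contains all structurally
stable diffeomorphisms, and its other elements can be taken in any given dense Gδ set.
-/

set_option autoImplicit false

open scoped Manifold ContDiff
open Pool.Agent.H410R3.KS

namespace Pool.Agent.Results.MP_fffd22_an.GenericBorel

/-- The set `Diff^r(M)` of the `C^r` diffeomorphisms of `M`. -/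
def Diff (n : ℕ) (M : Type) [TopologicalSpace M] [ChartedSpace (EuclideanSpace ℝ (Fin n)) M]
    (r : ℕ∞) : Type := DiffR (𝓡 n) M r

variable {n : ℕ} {M : Type} [TopologicalSpace M] [ChartedSpace (EuclideanSpace ℝ (Fin n)) M]
  {r : ℕ∞}

/-- The `C^r` topology on `Diff^r(M)`. -/
noncomputable instance topology : TopologicalSpace (Diff n M r) := crTopology (𝓡 n) M r

/-- The map underlying a diffeomorphism. -/
noncomputable def Diff.map (f : Diff n M r) : M → M := DiffR.map f

/-- `f` and `g` are topologically conjugate: `h ∘ f = g ∘ h` for a homeomorphism `h` of `M`. -/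
def TopConj (f g : Diff n M r) : Prop := ∃ h : M ≃ₜ M, ∀ z : M, h (f.map z) = g.map (h z)

/-- The structurally stable diffeomorphisms: `f` has a neighbourhood in the `C^r` topology all of
whose elements are topologically conjugate to `f`. -/
def Stable (f : Diff n M r) : Prop := ∃ U : Set (Diff n M r), IsOpen U ∧ f ∈ U ∧ ∀ g ∈ U, TopConj f g

/-- Topological conjugacy on `S` is Borel. -/
def BorelOn (S : Set (Diff n M r)) : Prop :=
  @MeasurableSet (Diff n M r × Diff n M r) (borel _) {p | p.1 ∈ S ∧ p.2 ∈ S ∧ TopConj p.1 p.2}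

theorem result (n : ℕ) (M : Type) [TopologicalSpace M]
    [ChartedSpace (EuclideanSpace ℝ (Fin n)) M] [IsManifold (𝓡 n) ∞ M] [CompactSpace M] [T2Space M]
    (r : ℕ∞) (hr : 1 ≤ r) (R : Set (Diff n M r)) (hR : IsGδ R) (hRd : Dense R) :
    ∃ S : Set (Diff n M r), IsGδ S ∧ Dense S ∧ (∀ f, Stable f → f ∈ S) ∧
      (∀ f ∈ S, Stable f ∨ f ∈ R) ∧ BorelOn S := by
  have hP : PolishSpace (Diff n M r) := Pool.Agent.W922.polish_cr r hr
  obtain ⟨G, hG, hGd, hGm⟩ := Pool.Agent.W922.generic_borel
    (E := EuclideanSpace ℝ (Fin n)) (M := M) r hr topology rfl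
  have hE : Equivalence (fun f g : Diff n M r => TopConj f g) := by
    refine ⟨fun f => ⟨Homeomorph.refl M, fun z => rfl⟩, ?_, ?_⟩
    · rintro f g ⟨h, hh⟩
      refine ⟨h.symm, fun z => ?_⟩
      apply h.injective
      rw [hh, h.apply_symm_apply, h.apply_symm_apply]
    · rintro f g k ⟨h, hh⟩ ⟨h', hh'⟩
      refine ⟨h.trans h', fun z => ?_⟩
      show h' (h (f.map z)) = k.map (h' (h z))
      rw [hh, hh']
  have hG' : @IsGδ (Diff n M r) _ G := hG
  have hGd' : @Dense (Diff n M r) _ G := hGd
  have hGR : @Dense (Diff n M r) _ (G ∩ R) := Dense.inter_of_Gδ (X := Diff n M r) hG' hR hGd' hRd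
  obtain ⟨S, h1, h2, h3, h4, h5⟩ := Pool.Agent.W948.BC.glue (X := Diff n M r)
    (fun f g : Diff n M r => TopConj f g) hE hG' hGd' hR hGR hGm
  exact ⟨S, h1, h2, fun f hf => h3 hf, fun f hf => h4 hf, h5⟩

end Pool.Agent.Results.MP_fffd22_an.GenericBorel
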